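import Pool.Agent.H86.L11
import Pool.Agent.H86.DA.Asm2
import Pool.Agent.H39.DA.Cyc
import Pool.Agent.H83.DA.Mas

set_option autoImplicit false

namespace Pool.Agent.Results.MP_7b7e48_nt.DenseSetsLinnik

/-- Density versions of Linnik's theorem for two arbitrary sets of primes, for every base `b ≥ 2`.

(1) Joint relative density above `1`: for every `ε > 0` there are `K` and `N₀` such that for every `N ≥ N₀` and all sets
`P`, `Q` of primes up to `N` which together have at least `(1 + ε) π(N)` elements, `N` is the sum of a prime from `P`, a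
different prime from `Q`, and at most `K` powers of `b`.

(2) Any positive relative densities: for every `α > 0` there are `C` and `θ > 0` such that for every `k` there are `X₀` and
`c > 0` such that for every `X ≥ X₀` and all sets `P`, `Q` of primes each of which has at least `α π(Y)` elements up to
`Y` for every `Y` between `c X` and `X`, all but at most `C e ^ (- θ k) X` of the integers `N ≤ X` are sums of a prime
from `P`, a different prime from `Q`, and at most `k` powers of `b`. -/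
theorem result :
    (∀ b : ℕ, 2 ≤ b → ∀ ε : ℝ, 0 < ε → ∃ K N₀ : ℕ, ∀ N : ℕ, N₀ ≤ N → ∀ P Q : Finset ℕ,
      (∀ p ∈ P, p.Prime ∧ p ≤ N) → (∀ q ∈ Q, q.Prime ∧ q ≤ N) →
      (1 + ε) * (Nat.primeCounting N : ℝ) ≤ (P.card : ℝ) + Q.card →
      ∃ p ∈ P, ∃ q ∈ Q, p ≠ q ∧ ∃ k ≤ K, ∃ e : Fin k → ℕ, N = p + q + ∑ i, b ^ e i) ∧
    (∀ b : ℕ, 2 ≤ b → ∀ α : ℝ, 0 < α → ∃ C θ : ℝ, 0 < θ ∧ ∀ k : ℕ, ∃ X₀ : ℕ, ∃ c : ℝ, 0 < c ∧
      ∀ X : ℕ, X₀ ≤ X → ∀ P Q : Set ℕ, (∀ p ∈ P, p.Prime) → (∀ q ∈ Q, q.Prime) →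
      (∀ Y : ℕ, c * X ≤ Y → Y ≤ X →
        α * (Nat.primeCounting Y : ℝ) ≤ (({p : ℕ | p ∈ P ∧ p ≤ Y} : Set ℕ).ncard : ℝ) ∧
        α * (Nat.primeCounting Y : ℝ) ≤ (({q : ℕ | q ∈ Q ∧ q ≤ Y} : Set ℕ).ncard : ℝ)) →
      (({N : ℕ | N ≤ X ∧ ¬ ∃ p ∈ P, ∃ q ∈ Q, p ≠ q ∧ ∃ k' ≤ k, ∃ e : Fin k' → ℕ,
        N = p + q + ∑ i, b ^ e i} : Set ℕ).ncard : ℝ) ≤ C * Real.exp (-(θ * k)) * X) := by
  refine ⟨?_, ?_⟩
  · intro b hb ε hε
    obtain ⟨K, N₀, h⟩ := Pool.Agent.H86.DL.dense_linnik b hb ε hε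
    refine ⟨K, N₀, fun N hN P Q hP hQ hPQ => ?_⟩
    obtain ⟨p, hp, q, hq, hpq, h1, h2⟩ := h N hN P Q hP hQ hPQ
    obtain ⟨k, hk, e, he⟩ := Pool.Agent.H86.DL.PS_fin b K _ h1
    exact ⟨p, hp, q, hq, hpq, k, hk, e, by omega⟩
  · intro b hb α hα
    exact Pool.Agent.H86.DA.exp_decay Pool.Agent.H39.DA.cyc Pool.Agent.H83.DA.mas b hb α hα

end Pool.Agent.Results.MP_7b7e48_nt.DenseSetsLinnik
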