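import Pool.Agent.H86.N6

set_option autoImplicit false

namespace Pool.Agent.Results.MP_7b7e48_nt.HalfDensityFails

/-- Let `b ≥ 2`.

(1) There are sets of primes `P α`, `0 ≤ α ≤ 1`, where `P α` has lower relative density at least `α` in the primes, such
that for every `K` and every `m ≥ 1` infinitely many multiples `N` of `m` have the following property: for no `α` is `N`
the sum of an element of `P α`, an element of `P (1 - α)` and at most `K` powers of `b`.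

(2) For every `ε > 0` there are sets of primes `P α`, `0 ≤ α ≤ 1`, where `P α` has at least `(α - ε) π(x)` elements up to
`x` for all large `x`, such that for every `K` the set of the integers `N` with this property has positive upper
density. -/
theorem result (b : ℕ) (hb : 2 ≤ b) :
    (∃ P : ℝ → Set ℕ, (∀ α, ∀ p ∈ P α, p.Prime) ∧
      (∀ α : ℝ, 0 ≤ α → α ≤ 1 → ∀ ε : ℝ, 0 < ε → ∃ x₀ : ℕ, ∀ x : ℕ, x₀ ≤ x →
        (α - ε) * (Nat.primeCounting x : ℝ) ≤ ((P α ∩ Set.Iic x).ncard : ℝ)) ∧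
      (∀ K m x₀ : ℕ, 1 ≤ m → ∃ N, x₀ ≤ N ∧ m ∣ N ∧ ∀ α : ℝ, 0 ≤ α → α ≤ 1 →
        ¬ ∃ p ∈ P α, ∃ q ∈ P (1 - α), ∃ k ≤ K, ∃ e : Fin k → ℕ, N = p + q + ∑ i, b ^ e i)) ∧
    (∀ ε : ℝ, 0 < ε → ∃ P : ℝ → Set ℕ, (∀ α, ∀ p ∈ P α, p.Prime) ∧
      (∀ α : ℝ, 0 ≤ α → α ≤ 1 → ∃ x₀ : ℕ, ∀ x : ℕ, x₀ ≤ x →
        (α - ε) * (Nat.primeCounting x : ℝ) ≤ ((P α ∩ Set.Iic x).ncard : ℝ)) ∧
      (∀ K : ℕ, ∃ c : ℝ, 0 < c ∧ ∀ x₀ : ℕ, ∃ X : ℕ, x₀ ≤ X ∧
        c * X ≤ (({N : ℕ | N ≤ X ∧ ∀ α : ℝ, 0 ≤ α → α ≤ 1 →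
          ¬ ∃ p ∈ P α, ∃ q ∈ P (1 - α), ∃ k ≤ K, ∃ e : Fin k → ℕ, N = p + q + ∑ i, b ^ e i} : Set ℕ).ncard : ℝ))) := by
  classical
  have hPS : ∀ (K k : ℕ), k ≤ K → ∀ e : Fin k → ℕ, Pool.Agent.H86.DL.PS b K (∑ i, b ^ e i) := by
    intro K k hk e
    have := Pool.Agent.H86.DL.PS_sum b (Finset.univ : Finset (Fin k)) (fun i => b ^ e i)
      (fun i _ => Pool.Agent.H86.DL.PS_pow b (e i))
    rw [Finset.card_univ, Fintype.card_fin] at this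
    exact Pool.Agent.H86.DL.PS_mono b _ _ _ this hk
  refine ⟨?_, fun ε hε => ?_⟩
  · obtain ⟨P, h1, h2, h3⟩ := Pool.Agent.H86.NL.negative b hb
    refine ⟨P, h1, ?_, ?_⟩
    · intro α h0 h1' ε hε
      obtain ⟨x₀, hx₀⟩ := h2 α h0 h1' ε hε
      refine ⟨x₀, fun x hx => ?_⟩
      have hfin : (P α ∩ Set.Iic x).Finite := (Set.finite_Iic x).subset Set.inter_subset_right
      have h4 := hx₀ x hx hfin.toFinset (by
        intro p
        rw [Set.Finite.mem_toFinset]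
        constructor
        · rintro ⟨f1, f2⟩; exact ⟨f2, f1⟩
        · rintro ⟨f1, f2⟩; exact ⟨f2, f1⟩)
      rw [Set.ncard_eq_toFinset_card _ hfin]
      exact h4
    · intro K m x₀ hm
      obtain ⟨N, g1, g2, g3⟩ := h3 K m x₀ hm
      refine ⟨N, g1, g2, fun α h0 h1' => ?_⟩
      rintro ⟨p, hp, q, hq, k, hk, e, he⟩
      exact g3 α h0 h1' p hp q hq _ (hPS K k hk e) he.symm
  · obtain ⟨P, h1, h2, h3⟩ := Pool.Agent.H86.NL.negativeB b hb ε hε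
    refine ⟨P, h1, ?_, ?_⟩
    · intro α h0 h1'
      obtain ⟨x₀, hx₀⟩ := h2 α h0 h1'
      refine ⟨x₀, fun x hx => ?_⟩
      have hfin : (P α ∩ Set.Iic x).Finite := (Set.finite_Iic x).subset Set.inter_subset_right
      have h4 := hx₀ x hx hfin.toFinset (by
        intro p
        rw [Set.Finite.mem_toFinset]
        constructor
        · rintro ⟨f1, f2⟩; exact ⟨f2, f1⟩
        · rintro ⟨f1, f2⟩; exact ⟨f2, f1⟩)
      rw [Set.ncard_eq_toFinset_card _ hfin]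
      exact h4
    · intro K
      obtain ⟨C, hC, h4⟩ := h3 K
      have hC0 : (0 : ℝ) < C := by exact_mod_cast hC
      refine ⟨1 / C, by positivity, fun x₀ => ?_⟩
      obtain ⟨B, X, g1, g2, g3⟩ := h4 x₀
      refine ⟨X, g1, ?_⟩
      have hBX : B ≤ X := by rw [g2]; exact Nat.le_mul_of_pos_left _ hC
      have hsub : (Finset.Ioc (X - B) X : Set ℕ) ⊆ {N : ℕ | N ≤ X ∧ ∀ α : ℝ, 0 ≤ α → α ≤ 1 →
          ¬ ∃ p ∈ P α, ∃ q ∈ P (1 - α), ∃ k ≤ K, ∃ e : Fin k → ℕ, N = p + q + ∑ i, b ^ e i} := by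
        intro N hN
        rw [Finset.mem_coe, Finset.mem_Ioc] at hN
        refine ⟨hN.2, fun α f0 f1 => ?_⟩
        rintro ⟨p, hp, q, hq, k, hk, e, he⟩
        exact g3 N (by omega) hN.2 α f0 f1 p hp q hq _ (hPS K k hk e) he.symm
      have hfin : ({N : ℕ | N ≤ X ∧ ∀ α : ℝ, 0 ≤ α → α ≤ 1 →
          ¬ ∃ p ∈ P α, ∃ q ∈ P (1 - α), ∃ k ≤ K, ∃ e : Fin k → ℕ, N = p + q + ∑ i, b ^ e i} : Set ℕ).Finite :=
        (Set.finite_Iic X).subset fun N hN => hN.1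
      have h5 := Set.ncard_le_ncard hsub hfin
      rw [Set.ncard_coe_finset, Nat.card_Ioc] at h5
      have h6 : X - (X - B) = B := by omega
      rw [h6] at h5
      have h7 : (B : ℝ) ≤ (({N : ℕ | N ≤ X ∧ ∀ α : ℝ, 0 ≤ α → α ≤ 1 →
          ¬ ∃ p ∈ P α, ∃ q ∈ P (1 - α), ∃ k ≤ K, ∃ e : Fin k → ℕ, N = p + q + ∑ i, b ^ e i} : Set ℕ).ncard : ℝ) := by
        exact_mod_cast h5
      refine le_trans (le_of_eq ?_) h7
      rw [g2]
      push_cast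
      field_simp

end Pool.Agent.Results.MP_7b7e48_nt.HalfDensityFails
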