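import Pool.Agent.H68.GC.All
import Pool.Agent.H68.GC.Shp

/-!
# The zeros of the zeta function do not imply the theorem of Linnik and Kátai for generalised primes

On the Riemann hypothesis every interval `[y, y + C (log y) ^ 2]` with large `y` contains a sum of two primes (Linnik, Kátai,
Montgomery and Vaughan, Goldston). The theorem here: for generalised primes (Beurling primes) nothing of the kind follows from the
analogues of the Riemann hypothesis and of the Lindelöf hypothesis, from the complete list of the zeros of the zeta function in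
`Re s > 1 / 3` with their multiplicities (for instance, if the Riemann hypothesis holds, the zeros of the Riemann zeta function),
from the explicit formula with the error `O(x ^ ε)` and from a regular distribution of the generalised integers, not even with
`(log y) ^ 2` replaced by `y ^ o(1)`. This is the exact threshold: the explicit formula with this error implies that every interval
`[y, y + y ^ δ]` with large `y` contains a sum of two primes.

A system of generalised primes is a sequence `1 < q 0 < q 1 < ...` of real numbers; its generalised integers are the products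
`gint q n = ∏ q (k - 1)` over the prime factors of `n` (with multiplicity, the factor being the `k`-th prime number), one for
every `n ≥ 1`, counted with multiplicity; for `q = 2, 3, 5, ...` one has `gint q n = n`.

Proof. The density `(main term - ∑ 2 cos (γ k log u) / √u) / log u`, where the zero `γ k` enters at `start γ k`, is positive, and the
integral of `u ^ (-s)` against it continues with the prescribed logarithmic singularities (`Pool.Agent.H49.BZ`, helper49). The primes
are placed in cells of mass one with respect to this density. It varies so slowly that in intervals of the length `u ^ o(1)` it is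
nearly constant. For a sparse sequence of numbers `y` the cells between `P = y ^ (1 / M)` (where `M` tends slowly to infinity) and
`y / 2` and their images under `u ↦ y - u` are grouped into windows of the length `y ^ o(1)`; in a block of four consecutive windows
the images have equal numbers of cells, up to an error that is absorbed by the distances of the windows. Independent random
signs decide whether the right window of a pair is filled twice or not at all; a left window is filled four times if its sign
and the preceding one agree in the favourable sense, else it is empty; the signs of a block are chosen so that the number of the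
points of the block is always the same. So a sum of two primes never falls into `[y, y + h y]`, but every point is still expected
with the right density, and the count differs from the integral of the density by `O(x ^ ε)`; the positions in a window are equally
spaced after a random translation. The method of conditional expectations for countably many frequencies makes the twisted sums
`∑_{q ≤ x} q ^ (-i m)` small for all `m` and `x` (`Pool.Agent.H68.GC`, written with helper39, helper49, helper53, helper58).
The analytic continuation of the zeta function from these sums and the distribution of the generalised integers are in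
`Pool.Agent.H49.BZ` (helper49).
-/

set_option autoImplicit false

open Filter Topology MeasureTheory Complex

namespace Pool.Agent.Results.MP_7b7e48_nt.LinnikKataiGivenAllZeros

open Pool.Agent.H49.BP (gint)

/-- The number of generalised primes up to `x`. -/
noncomputable def primeCount (q : ℕ → ℝ) (x : ℝ) : ℕ := {j : ℕ | q j ≤ x}.ncard

/-- The number of generalised integers up to `x`, with multiplicity. -/
noncomputable def intCount (q : ℕ → ℝ) (x : ℝ) : ℕ := {n : ℕ | 1 ≤ n ∧ gint q n ≤ x}.ncard

/-- Every window `[T, T + 1]`, `T ≥ 0`, contains at most `C (T + 1) ^ ε` terms of the sequence, for every `ε > 0`, with a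
constant `C` which depends on `ε`. -/
def Windows (γ : ℕ → ℝ) : Prop :=
  ∀ ε : ℝ, 0 < ε → ∃ C : ℝ, ∀ T : ℝ, 0 ≤ T → ∀ S : Finset ℕ,
    (∀ k ∈ S, T ≤ γ k ∧ γ k ≤ T + 1) → (S.card : ℝ) ≤ C * (T + 1) ^ ε

/-- The generalised primes `q` have the zeta function `Z s / (s - 1)` and satisfy the analogues of the Riemann hypothesis and of
the Lindelöf hypothesis: they increase strictly from `q 0 > 1`; their number up to `x` is `∫_2^x du / log u + O(x ^ (1 / 2 + ε))`
and the number of the generalised integers up to `x` is `ρ x + O(x ^ (1 / 2 + ε))` for every `ε > 0`, with a `ρ > 0`; the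
function `Z` is holomorphic in `Re s > 1 / 3` and `∑ (gint q n) ^ (-s) = Z s / (s - 1)` for `Re s > 1`; in `Re s > 1 / 2` one has
`Z s = s * exp (G s)` with a holomorphic function `G` that is at most `C √(log (|Im s| + 3))` for `Re s ≥ σ`, for every `σ > 1 / 2`. -/
def RHSystem (q : ℕ → ℝ) (Z : ℂ → ℂ) : Prop :=
  StrictMono q ∧ 1 < q 0 ∧
    (∀ ε : ℝ, 0 < ε → ∃ C : ℝ, ∀ x : ℝ, 2 ≤ x →
      |(primeCount q x : ℝ) - ∫ u in (2 : ℝ)..x, (Real.log u)⁻¹| ≤ C * x ^ (1 / 2 + ε)) ∧
    (∃ ρ : ℝ, 0 < ρ ∧ ∀ ε : ℝ, 0 < ε → ∃ C : ℝ, ∀ x : ℝ, 1 ≤ x →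
      |(intCount q x : ℝ) - ρ * x| ≤ C * x ^ (1 / 2 + ε)) ∧
    (∀ s : ℂ, 1 / 3 < s.re → AnalyticAt ℂ Z s) ∧
    (∀ s : ℂ, 1 < s.re → ∑' n : ℕ, ((gint q (n + 1) : ℝ) : ℂ) ^ (-s) = Z s / (s - 1)) ∧
    ∃ G : ℂ → ℂ, DifferentiableOn ℂ G {s | 1 / 2 < s.re} ∧
      (∀ s : ℂ, 1 / 2 < s.re → Z s = s * Complex.exp (G s)) ∧
      ∀ σ : ℝ, 1 / 2 < σ → ∃ C : ℝ, ∀ s : ℂ, σ ≤ s.re → ‖G s‖ ≤ C * √(Real.log (|s.im| + 3))

/-- The zeros of `Z` in the half-plane `Re s > 1 / 3` are the points `1 / 2 ± i γ k`, and the order of such a zero is the number
of the `k` with this ordinate. -/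
def HasZeros (Z : ℂ → ℂ) (γ : ℕ → ℝ) : Prop :=
  ∀ s : ℂ, 1 / 3 < s.re → analyticOrderAt Z s = {k | s = 1 / 2 + γ k * I ∨ s = 1 / 2 - γ k * I}.encard

/-- The point from which on the zero of height `γ k` is felt: `exp (π N / (γ k))` with the least natural number `N` such that
it is at least `(8 k + 9) ^ 2 * (1 + γ k)`. -/
noncomputable def start (γ : ℕ → ℝ) (k : ℕ) : ℝ :=
  Real.exp (Real.pi * ⌈γ k * (2 * Real.log (8 * k + 9) + Real.log (1 + γ k)) / Real.pi⌉₊ / γ k)

/-- The right side of the explicit formula: the integral from `1` to `x` of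
`(1 - 1 / u - (u ^ (-1 / 2) - 1 / u) / 2 - ∑ 2 cos (γ k log u) / √u) / log u`, the sum over the `k` with `start γ k ≤ u`. -/
noncomputable def explicit (γ : ℕ → ℝ) (x : ℝ) : ℝ :=
  ∫ u in (1 : ℝ)..x, (((1 - u⁻¹) - 1 / 2 * ((√u)⁻¹ - u⁻¹)) / Real.log u -
    ∑' k, if start γ k ≤ u then 2 * Real.cos (γ k * Real.log u) / (√u * Real.log u) else 0)

/-- Let `0 < γ 0 ≤ γ 1 ≤ ...` be any sequence with at most `O((T + 1) ^ ε)` terms in every window `[T, T + 1]`.

(a) Let `h` be a function with `h x = O(x ^ ε)` for every `ε > 0` (for instance `h x = exp (√(log x))`, which is larger than every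
power of `log x`). There are generalised primes with the analogues of the Riemann hypothesis and of the Lindelöf hypothesis such
that the zeros of the zeta function in `Re s > 1 / 3` are the points `1 / 2 ± i γ k` (with the multiplicities),
the number of the primes up to `x` is given by the explicit formula with the error `O(x ^ ε)` for every `ε > 0`, and
for arbitrarily large `y` the interval `[y, y + h y]` contains no sum of two (equal or different) generalised primes.

(b) For all generalised primes that satisfy the explicit formula with the error `O(x ^ ε)` for every `ε > 0`, and for every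
`δ > 0`, the interval `[y, y + y ^ δ]` contains a sum of two generalised primes for all large `y`. -/
theorem result (γ : ℕ → ℝ) (hpos : ∀ k, 0 < γ k) (hmono : Monotone γ) (hwin : Windows γ) :
    (∀ h : ℝ → ℝ, (∀ ε : ℝ, 0 < ε → ∃ C : ℝ, ∀ x : ℝ, 1 ≤ x → h x ≤ C * x ^ ε) →
      ∃ (q : ℕ → ℝ) (Z : ℂ → ℂ), RHSystem q Z ∧ HasZeros Z γ ∧
        (∀ ε : ℝ, 0 < ε → ∃ C : ℝ, ∀ x : ℝ, 1 ≤ x → |(primeCount q x : ℝ) - explicit γ x| ≤ C * x ^ ε) ∧
        ∀ Y : ℝ, ∃ y : ℝ, Y ≤ y ∧ ∀ i j : ℕ, ¬ (y ≤ q i + q j ∧ q i + q j ≤ y + h y)) ∧
    ∀ q : ℕ → ℝ, StrictMono q → 1 < q 0 →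
      (∀ ε : ℝ, 0 < ε → ∃ C : ℝ, ∀ x : ℝ, 1 ≤ x → |(primeCount q x : ℝ) - explicit γ x| ≤ C * x ^ ε) →
      ∀ δ : ℝ, 0 < δ → ∃ Y : ℝ, ∀ y : ℝ, Y ≤ y → ∃ i j : ℕ, y ≤ q i + q j ∧ q i + q j ≤ y + y ^ δ := by
  refine ⟨fun h hh => ?_, fun q _ hq0 hE δ hδ => Pool.Agent.H68.GC.sharp hpos hq0 hE hδ⟩
  obtain ⟨q, Z, h1, h2, h3, h4⟩ := Pool.Agent.H68.GC.system hpos hmono hwin hh
  refine ⟨q, Z, h1, h2, h3, fun Y => ?_⟩
  obtain ⟨y, hY, hy⟩ := h4 Y
  refine ⟨y, hY, fun i j hij => ?_⟩
  rcases hy i j with h6 | h6
  · linarith [hij.1]
  · linarith [hij.2]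

end Pool.Agent.Results.MP_7b7e48_nt.LinnikKataiGivenAllZeros
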