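import Mathlib
import Pool.Agent.H68.MG.Col
import Pool.Agent.H68.MG.Sharp

set_option autoImplicit false

/-! Monochromatic Goldbach representations of numbers without small prime factors, monochromatic
tuples of primes all of whose pairwise averages lie in a dense set of such numbers, and the exact number of colours
which can destroy all representations of the numbers divisible by a prime of a finite set. -/

namespace Pool.Agent.Results.MP_7b7e48_nt.MonochromaticGoldbach

open Classical in
/-- The integers `1 ≤ n ≤ x` without a prime factor `≤ w`. -/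
noncomputable def rough (w x : ℕ) : Finset ℕ :=
  (Finset.Icc 1 x).filter (fun n => ∀ p, p.Prime → p ≤ w → ¬ p ∣ n)

/-- The representations `2n = p + q` with primes `p < q` of the same colour. -/
def monoReps {r : ℕ} (χ : ℕ → Fin r) (n : ℕ) : Finset (ℕ × ℕ) :=
  (Finset.range (2 * n + 1) ×ˢ Finset.range (2 * n + 1)).filter
    (fun p => p.1.Prime ∧ p.2.Prime ∧ p.1 < p.2 ∧ p.1 + p.2 = 2 * n ∧ χ p.1 = χ p.2)

/-- The `k`-tuples of distinct primes `≤ x` of one colour all of whose pairwise averages lie in `C`. -/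
def monoTuples (k x : ℕ) {r : ℕ} (χ : ℕ → Fin r) (C : Finset ℕ) : Finset (Fin k → ℕ) :=
  (Fintype.piFinset (fun _ => (Finset.range (x + 1)).filter Nat.Prime)).filter
    (fun p => ∀ i j, i ≠ j → p i ≠ p j ∧ χ (p i) = χ (p j) ∧ ∃ n ∈ C, p i + p j = 2 * n)

theorem main (k r : ℕ) (δ : ℝ) (hδ : 0 < δ) :
    ∃ w₀ : ℕ, ∀ w ≥ w₀, ∃ c : ℝ, 0 < c ∧ ∃ x₀ : ℕ, ∀ x ≥ x₀, ∀ χ : ℕ → Fin r,
      ((((rough w x).filter (fun n => ((monoReps χ n).card : ℝ) < c * x / Real.log x ^ 2)).card : ℝ) ≤
        δ * (rough w x).card) ∧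
      (∀ C ⊆ rough w x, δ * (rough w x).card ≤ C.card →
        c * ((x : ℝ) / Real.log x) ^ k ≤ (monoTuples k x χ C).card) := by
  classical
  obtain ⟨w₁, H₁⟩ := Pool.Agent.H68.MG.colours r δ hδ
  obtain ⟨w₂, H₂⟩ := Pool.Agent.H68.MG.mono_cliques k r δ hδ
  refine ⟨max w₁ w₂, fun w hw => ?_⟩
  obtain ⟨c₁, hc₁, x₁, h₁⟩ := H₁ w ((le_max_left _ _).trans hw)
  obtain ⟨c₂, hc₂, x₂, h₂⟩ := H₂ w ((le_max_right _ _).trans hw)
  refine ⟨min c₁ c₂, lt_min hc₁ hc₂, max (max x₁ x₂) 3, fun x hx χ => ⟨?_, fun C hC hCc => ?_⟩⟩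
  · have hx3 : 3 ≤ x := (le_max_right _ _).trans hx
    have hL : 0 < Real.log x := Real.log_pos (by exact_mod_cast (by omega : 1 < x))
    refine le_trans ?_ (h₁ x (le_trans (le_trans (le_max_left _ _) (le_max_left _ _)) hx) χ)
    have hsub : (rough w x).filter (fun n => ((monoReps χ n).card : ℝ) < min c₁ c₂ * x / Real.log x ^ 2) ⊆
        (Pool.Agent.H68.MG.Rough w x).filter
          (fun n => ((Pool.Agent.H68.MG.Mono χ n).card : ℝ) < c₁ * x / Real.log x ^ 2) := by
      intro n hn
      rw [Finset.mem_filter] at hn ⊢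
      refine ⟨hn.1, lt_of_lt_of_le hn.2 ?_⟩
      gcongr
      exact min_le_left _ _
    exact_mod_cast Finset.card_le_card hsub
  · have hx3 : 3 ≤ x := (le_max_right _ _).trans hx
    have hL : 0 < Real.log x := Real.log_pos (by exact_mod_cast (by omega : 1 < x))
    refine le_trans ?_ (h₂ x (le_trans (le_trans (le_max_right _ _) (le_max_left _ _)) hx) χ C hC hCc)
    apply mul_le_mul_of_nonneg_right (min_le_right _ _)
    positivity

open Classical in
/-- First part: for all `k`, `r` and `δ > 0`, all large `w`, with a `c > 0`, and all large `x`, for every colouring with `r` colours: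
(a) all but a proportion `δ` of the `n ≤ x` without a prime factor `≤ w` have at least `c x / (log x) ^ 2` representations
`2n = p + q` by primes `p < q` of the same colour; (b) for every set `C` which contains at least a proportion `δ` of these `n`, at
least `c (x / log x) ^ k` of the `k`-tuples of distinct primes `≤ x` of one colour have all pairwise averages in `C`.

Second part (c), which shows that small prime factors cannot be admitted and that `w` must depend on `r` and `δ`: for every
finite set `P` of primes there is a colouring with `2 ^ |P|` colours without a representation `2n = p + q` by primes `p < q` of one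
colour for any `n` divisible by a prime of `P`; and with fewer colours at least `c x` of these `n ≤ x` have at least
`c x / (log x) ^ 2` such representations. -/
theorem result :
    (∀ (k r : ℕ) (δ : ℝ), 0 < δ →
      ∃ w₀ : ℕ, ∀ w ≥ w₀, ∃ c : ℝ, 0 < c ∧ ∃ x₀ : ℕ, ∀ x ≥ x₀, ∀ χ : ℕ → Fin r,
        ((((rough w x).filter (fun n => ((monoReps χ n).card : ℝ) < c * x / Real.log x ^ 2)).card : ℝ) ≤
          δ * (rough w x).card) ∧
        (∀ C ⊆ rough w x, δ * (rough w x).card ≤ C.card →
          c * ((x : ℝ) / Real.log x) ^ k ≤ (monoTuples k x χ C).card)) ∧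
    ∀ P : Finset ℕ, (∀ l ∈ P, l.Prime) →
      (∃ χ : ℕ → Fin (2 ^ P.card), ∀ n : ℕ, (∃ l ∈ P, l ∣ n) → monoReps χ n = ∅) ∧
      (∀ r < 2 ^ P.card, ∃ c : ℝ, 0 < c ∧ ∃ x₀ : ℕ, ∀ x ≥ x₀, ∀ χ : ℕ → Fin r,
        c * x ≤ (((Finset.Icc 1 x).filter
          (fun n => (∃ l ∈ P, l ∣ n) ∧ c * x / Real.log x ^ 2 ≤ ((monoReps χ n).card : ℝ))).card : ℝ)) := by
  refine ⟨fun k r δ hδ => main k r δ hδ, fun P hP => ⟨Pool.Agent.H68.MG.sharp P hP, fun r hr => ?_⟩⟩
  obtain ⟨c, hc, x₀, h⟩ := Pool.Agent.H68.MG.optimal P hP r hr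
  refine ⟨c, hc, x₀, fun x hx χ => (h x hx χ).trans (le_of_eq ?_)⟩
  congr 2

end Pool.Agent.Results.MP_7b7e48_nt.MonochromaticGoldbach
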